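import Pool.Agent.R697.LD.Closed

/-!
# The group of local automorphisms is a closed subgroup

Let `V` be a finite-dimensional algebra over `𝕜 = ℝ` or `ℂ`. The definitions `IsAutomorphism` and
`LocAut` are in `Pool/Agent/R697/LD/Bridge.lean`.

Proof. Let `φ ∈ GL(V)` be a limit of local automorphisms, `x ∈ V` and `y = φ x`. Then `y` is in the
closure of the orbit of `x` under `Aut(V)` and `x` is in the closure of the orbit of `y`. So
`dim Der(V) x ≤ dim Der(V) y = r`. Choose derivations `D_j` such that the `D_j y` are a basis of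
`Der(V) y` and a linear map `Λ : V → 𝕜^r` with `Λ(D_j y) = e_j`. The exponentials of the combinations
of the `D_j` carry the points of the orbit of `x` near `y` to points of the set
`F = {z ∈ Aut(V) x : Λ z = Λ y, det(Λ(D_j z)) ≠ 0}` near `y`. It suffices that `F` is finite. One may
assume that `𝕜 = ℂ`. On the algebraic set of the pairs `(h, s)` where `h` is an automorphism with
`Λ(h x) = Λ y` and `s det(h) det(Λ(D_j h x)) = 1`, the map `h ↦ h x` is locally constant: for
automorphisms `g` near `1`, `g z - z` is almost in `Der(V) z`, on which `Λ` is injective. So its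
image is countable; but a polynomial function which takes countably many values on a complex
algebraic set takes only finitely many.
-/

set_option autoImplicit false

namespace Pool.Agent.Results.MP_fbf57d_al.LocAutClosed

open Pool.Agent.R697.LD Topology

universe u v

/-- **The group of local automorphisms is a closed subgroup of `GL(V)`.** Let `𝕜` be `ℝ` or `ℂ` and
let `V` be a finite-dimensional algebra over `𝕜` with the bilinear product `m`. Every local
automorphism of `V` is invertible, and the local automorphisms form a subgroup of `GL(V)` which is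
closed in `GL(V)`. (`GL(V)` is the group of the units of `End(V)` with its usual topology; the
norm on `V` is auxiliary, it is used for this topology only.) -/
theorem result (𝕜 : Type u) [RCLike 𝕜] (V : Type v) [NormedAddCommGroup V] [NormedSpace 𝕜 V]
    [FiniteDimensional 𝕜 V] (m : V →ₗ[𝕜] V →ₗ[𝕜] V) :
    (∀ φ ∈ LocAut m, IsUnit φ) ∧
      ∃ G : Subgroup (V →L[𝕜] V)ˣ,
        (∀ g : (V →L[𝕜] V)ˣ, g ∈ G ↔ (g : V →L[𝕜] V) ∈ LocAut m) ∧
        IsClosed (G : Set (V →L[𝕜] V)ˣ) := by
  have : CompleteSpace V := FiniteDimensional.complete 𝕜 V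
  have horb : ∀ φ : V →L[𝕜] V, φ ∈ LocAut m ↔ ∀ x, φ x ∈ orbset m x := fun φ => Iff.rfl
  have hu : ∀ φ ∈ LocAut m, IsUnit φ := by
    intro φ hφ
    rw [ContinuousLinearMap.isUnit_iff_bijective]
    have hinj : Function.Injective (φ : V →ₗ[𝕜] V) := by
      rw [injective_iff_map_eq_zero]
      intro x hx
      obtain ⟨ψ, hψ, e⟩ := hφ x
      have h1 : ψ x = 0 := e.symm.trans hx
      exact hψ.1.1 (h1.trans (map_zero ψ).symm)
    exact ⟨hinj, LinearMap.surjective_of_injective hinj⟩
  have hinv : ∀ g : (V →L[𝕜] V)ˣ, (g : V →L[𝕜] V) ∈ LocAut m →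
      ((g⁻¹ : (V →L[𝕜] V)ˣ) : V →L[𝕜] V) ∈ LocAut m := by
    intro g hg
    rw [horb] at hg ⊢
    intro x
    have h1 := hg (((g⁻¹ : (V →L[𝕜] V)ˣ) : V →L[𝕜] V) x)
    have h2 : (g : V →L[𝕜] V) (((g⁻¹ : (V →L[𝕜] V)ˣ) : V →L[𝕜] V) x) = x :=
      congrArg (fun f : V →L[𝕜] V => f x) g.mul_inv
    rw [h2] at h1
    exact orbset_symm h1
  refine ⟨hu, ?_⟩
  let G : Subgroup (V →L[𝕜] V)ˣ :=
    { carrier := {g | (g : V →L[𝕜] V) ∈ LocAut m}
      mul_mem' := by
        intro a b ha hb x
        obtain ⟨ψ, hψ, e⟩ := hb x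
        obtain ⟨χ, hχ, e'⟩ := ha ((b : V →L[𝕜] V) x)
        refine ⟨χ.comp ψ, hχ.comp hψ, ?_⟩
        show (a : V →L[𝕜] V) ((b : V →L[𝕜] V) x) = χ (ψ x)
        rw [e', e]
      one_mem' := fun x => ⟨1, ⟨Function.bijective_id, fun _ _ => rfl⟩, rfl⟩
      inv_mem' := fun {g} hg => hinv g hg }
  have hG : ∀ g : (V →L[𝕜] V)ˣ, g ∈ G ↔ (g : V →L[𝕜] V) ∈ LocAut m := fun _ => Iff.rfl
  refine ⟨G, hG, ?_⟩
  rw [← closure_subset_iff_isClosed]
  intro g hg
  show (g : V →L[𝕜] V) ∈ LocAut m
  rw [horb]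
  intro x
  have hc1 : Continuous fun h : (V →L[𝕜] V)ˣ => (h : V →L[𝕜] V) x :=
    (ContinuousLinearMap.apply 𝕜 V x).continuous.comp Units.continuous_val
  have hc2 : Continuous fun h : (V →L[𝕜] V)ˣ =>
      ((h⁻¹ : (V →L[𝕜] V)ˣ) : V →L[𝕜] V) ((g : V →L[𝕜] V) x) :=
    (ContinuousLinearMap.apply 𝕜 V ((g : V →L[𝕜] V) x)).continuous.comp
      (Units.continuous_val.comp continuous_inv)
  refine mem_orbset_of_mem_closure ?_ ?_
  · have h1 := map_mem_closure (t := orbset m x) hc1 hg fun h hh => (horb _).1 hh x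
    exact h1
  · have h1 := map_mem_closure (t := orbset m ((g : V →L[𝕜] V) x)) hc2 hg
      fun h hh => (horb _).1 (hinv h hh) _
    have h2 : ((g⁻¹ : (V →L[𝕜] V)ˣ) : V →L[𝕜] V) ((g : V →L[𝕜] V) x) = x :=
      congrArg (fun f : V →L[𝕜] V => f x) g.inv_mul
    rwa [h2] at h1

end Pool.Agent.Results.MP_fbf57d_al.LocAutClosed
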